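import Pool.Agent.Lib.MP_232f4c_nt.H86Count

/-!
The subsequential Sarnak property fails for at most countably many members of a family of twists.
-/

open MeasureTheory Filter
open scoped BoundedContinuousFunction ComplexConjugate

/-- Let `F` be 1-bounded, `x k → ∞`, and let `c k` be colourings with `J` colours. Let `𝓗` be a
family of 1-bounded multiplicative functions, pairwise at infinite pretentious distance, each of
which is nearly constant on the colour classes of the primes from `x k` to `x k ^ u` for every `u`.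
Then for all but countably many `h ∈ 𝓗` the function `F h` is orthogonal, along some `N k → ∞`,
to every weight that is completely deterministic along `N`. -/
theorem Pool.Agent.Results.MP_232f4c_nt.CountableExceptions.result
    (F : ℕ → ℂ) (hF : ∀ n, ‖F n‖ ≤ 1) (x : ℕ → ℕ) (hx : Tendsto x atTop atTop)
    (J : ℕ) (c : ℕ → ℕ → Fin J) (𝓗 : Set (ℕ → ℂ))
    (h1 : ∀ h ∈ 𝓗, (∀ n, ‖h n‖ ≤ 1) ∧ h 1 = 1 ∧
      ∀ m n : ℕ, 0 < m → 0 < n → Nat.Coprime m n → h (m * n) = h m * h n)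
    (h2 : ∀ h ∈ 𝓗, ∃ z : ℕ → Fin J → ℂ, (∀ k j, ‖z k j‖ ≤ 1) ∧ ∀ u : ℕ,
      Tendsto (fun k : ℕ => ∑ p ∈ (Finset.Ioc (x k) (x k ^ u)).filter Nat.Prime,
        ‖h p - z k (c k p)‖ / p) atTop (nhds 0))
    (h3 : ∀ h ∈ 𝓗, ∀ h' ∈ 𝓗, h ≠ h' →
      Tendsto (fun y : ℕ => ∑ p ∈ (Finset.Icc 1 y).filter Nat.Prime,
        (1 - (h p * conj (h' p)).re) / p) atTop atTop) :
    Set.Countable {h ∈ 𝓗 | ¬∃ N : ℕ → ℕ, Tendsto N atTop atTop ∧
      ∀ w : ℕ → ℂ, (∀ n, ‖w n‖ ≤ 1) →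
        (∀ φ : ℕ → ℕ, StrictMono φ →
          ∀ μ : Measure (ℤ → ℂ), IsProbabilityMeasure μ →
          (∀ g : (ℤ → ℂ) →ᵇ ℝ,
            Tendsto (fun k : ℕ => (1 / (N (φ k) : ℝ)) * ∑ n ∈ Finset.Icc 1 (N (φ k)),
              g (fun j : ℤ => if 0 < j + (n : ℤ) then w (j + (n : ℤ)).toNat else 0))
              atTop (nhds (∫ x, g x ∂μ))) →
          ∀ m : ℕ, ∀ P : (ℤ → ℂ) → Fin m, Measurable P →
            Tendsto (fun r : ℕ => (1 / (r : ℝ)) * ∑ a : Fin r → Fin m, Real.negMulLog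
              ((μ {x | ∀ i : Fin r, P (fun j : ℤ => x (j + (i.val : ℤ))) = a i}).toReal))
              atTop (nhds 0)) →
        Tendsto (fun k : ℕ => (1 / (N k : ℂ)) * ∑ n ∈ Finset.Icc 1 (N k), F n * h n * w n)
          atTop (nhds 0)} := by
  refine (Pool.Agent.Lib.MP_232f4c_nt.H86.countable_bad (c := c) hF hx
    (fun h hh => ⟨⟨(h1 h hh).1, (h1 h hh).2.1, (h1 h hh).2.2⟩, h2 h hh⟩)
    fun h hh h' hh' hne => Pool.Agent.Lib.MP_232f4c_nt.H86.far_of (h3 h hh h' hh' hne)).mono ?_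
  rintro h ⟨hh, hb⟩
  refine ⟨hh, fun ⟨N, k1, k2⟩ => hb ⟨N, k1, fun w hw hd => ?_⟩⟩
  refine Pool.Agent.Lib.MP_232f4c_nt.orth k1 k2 (fun n => ?_) hw hd
  rw [norm_mul]
  exact mul_le_one₀ (hF n) (norm_nonneg _) ((h1 h hh).1 n)
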