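import Pool.Agent.Lib.MP_232f4c_nt.OdMain

/-!
Correlations of all orders over an arbitrary finite field, along a set of degrees of density one.
-/

open Polynomial Filter

namespace Pool.Agent.Results.MP_232f4c_nt.FunctionFieldElliott

/-- `f` pretends to be the completely multiplicative function `P ↦ ε * ξ P`, where `ξ` is a
character modulo `M` and short intervals of codimension `l`. -/
def Pretends {k : Type} [Field k] [Fintype k] (ε : ℂ) (f : k[X] → ℂ) : Prop :=
  ∃ (ξ : k[X] →* ℂ) (M : k[X]) (l : ℕ), M.Monic ∧ (∀ F, ‖ξ F‖ ≤ 1) ∧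
    (∀ F t : k[X], F.Monic → (M * t).natDegree + l < F.natDegree → ξ (F + M * t) = ξ F) ∧
    Summable fun P : {P : k[X] // P.Monic ∧ Irreducible P} =>
      (1 - (ε * f P * (starRingEnd ℂ) (ξ P)).re) / (Fintype.card k : ℝ) ^ P.1.natDegree

/-- For a countable family of bounded multiplicative functions there is one set `S` of degrees of
density one along which every correlation vanishes that contains a function pretending to be the
Liouville function times a character. -/
theorem result (k : Type) [Field k] [Fintype k] (I : Type) [Countable I] (f : I → k[X] → ℂ)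
    (hf : ∀ i F, ‖f i F‖ ≤ 1)
    (hm : ∀ (i : I) (F G : k[X]), F.Monic → G.Monic → IsCoprime F G →
      f i (F * G) = f i F * f i G) :
    ∃ S : Set ℕ, Tendsto (fun N : ℕ => ((S ∩ Set.Iio N).ncard : ℝ) / N) atTop (nhds 1) ∧
      (ringChar k = 2 → (∀ i, Pretends 1 (f i) ∨ Pretends (-1) (f i)) → S = Set.univ) ∧
      ∀ (ι : Type) [Fintype ι] (c : ι → I) (a b : ι → k[X]), (∀ i, (a i).Monic) →
        (∀ i j, i ≠ j → a i * b j ≠ a j * b i) → (∃ i, Pretends (-1) (f (c i))) →
        Tendsto (fun n : ℕ =>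
          (∑ᶠ F ∈ {F : k[X] | F.Monic ∧ F.natDegree = n}, ∏ i, f (c i) (a i * F + b i)) /
            (Fintype.card k : ℂ) ^ n) (atTop ⊓ principal S) (nhds 0) :=
  Pool.Agent.Lib.MP_232f4c_nt.Od.elliott Pool.Agent.Lib.MP_232f4c_nt.Od.ellAll
    Pool.Agent.Lib.MP_232f4c_nt.Od.stKvN I f hf hm (fun ε i => Pretends ε (f i)) fun _ _ h => h

end Pool.Agent.Results.MP_232f4c_nt.FunctionFieldElliott
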