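import Pool.Agent.Lib.MP_232f4c_nt.OdMain

/-!
Orthogonality to completely deterministic weights over an arbitrary finite field, for
multiplicative functions that pretend to be the Liouville function times a Hayes character.
-/

open Polynomial MeasureTheory Filter
open scoped BoundedContinuousFunction

/-- `ξ` is a character modulo `M` and short intervals of codimension `l`; `f` is multiplicative and
pretends to be `λ * ξ`. There is a set `S` of degrees of density one such that along every sequence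
of degrees `N` in `S`, `f` is orthogonal to every weight all of whose Furstenberg systems
(translation action of `k[X]`) along subsequences have entropy zero. -/
theorem Pool.Agent.Results.MP_232f4c_nt.FunctionFieldSarnak.result
    (k : Type) [Field k] [Fintype k] (f : k[X] → ℂ) (ξ : k[X] →* ℂ) (M : k[X]) (l : ℕ)
    (hf : ∀ F, ‖f F‖ ≤ 1)
    (hm : ∀ F G : k[X], F.Monic → G.Monic → IsCoprime F G → f (F * G) = f F * f G)
    (hM : M.Monic) (hξ : ∀ F, ‖ξ F‖ ≤ 1)
    (hξ' : ∀ F t : k[X], F.Monic → (M * t).natDegree + l < F.natDegree → ξ (F + M * t) = ξ F)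
    (hs : Summable fun P : {P : k[X] // P.Monic ∧ Irreducible P} =>
      (1 + (f P * (starRingEnd ℂ) (ξ P)).re) / (Fintype.card k : ℝ) ^ P.1.natDegree) :
    ∃ S : Set ℕ, Tendsto (fun n : ℕ => ((S ∩ Set.Iio n).ncard : ℝ) / n) atTop (nhds 1) ∧
      (ringChar k = 2 → S = Set.univ) ∧
      ∀ N : ℕ → ℕ, Tendsto N atTop atTop → (∀ j, N j ∈ S) → ∀ w : k[X] → ℂ, (∀ F, ‖w F‖ ≤ 1) →
      (∀ φ : ℕ → ℕ, StrictMono φ → ∀ μ : Measure (k[X] → ℂ), IsProbabilityMeasure μ →
        (∀ g : (k[X] → ℂ) →ᵇ ℝ, Tendsto (fun j : ℕ =>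
          (∑ᶠ F ∈ {F : k[X] | F.Monic ∧ F.natDegree = N (φ j)}, g fun h => w (F + h)) /
            (Fintype.card k : ℝ) ^ N (φ j)) atTop (nhds (∫ x, g x ∂μ))) →
        ∀ m : ℕ, ∀ P : (k[X] → ℂ) → Fin m, Measurable P →
          Tendsto (fun r : ℕ => (∑ᶠ a : degreeLT k r → Fin m, Real.negMulLog
            (μ {x | ∀ y : degreeLT k r, P (fun h => x (h + y)) = a y}).toReal) /
              (Fintype.card k : ℝ) ^ r) atTop (nhds 0)) →
      Tendsto (fun j : ℕ => (∑ᶠ F ∈ {F : k[X] | F.Monic ∧ F.natDegree = N j}, f F * w F) /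
        (Fintype.card k : ℂ) ^ N j) atTop (nhds 0) :=
  Pool.Agent.Lib.MP_232f4c_nt.Od.sarnak Pool.Agent.Lib.MP_232f4c_nt.Od.ellAll
    Pool.Agent.Lib.MP_232f4c_nt.Od.stKvN ⟨hf, hm⟩ ⟨ξ, M, l, hM, hξ, hξ', hs⟩
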