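import Pool.Agent.Lib.MP_232f4c_nt.GapG2

/-!
The subsequential Sarnak property for aperiodic functions that pretend to be a twisted character on
long ranges of primes.
-/

open MeasureTheory Filter
open scoped BoundedContinuousFunction ComplexConjugate

/-- Let `f` be 1-bounded, multiplicative and aperiodic. Suppose that for every `ε > 0` there are
arbitrarily large `u`, a Dirichlet character `χ` and arbitrarily large `M` with a twist
`|t| ≤ M ^ u` such that the squared distance from `f` to `χ(n) n ^ (i t)` over the primes in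
`(M ^ (1 / u), M]` is at most `ε log u`. Then along some `N k → ∞` the function `f` is orthogonal
to every weight that is completely deterministic along `N`. -/
theorem Pool.Agent.Results.MP_232f4c_nt.LongPretending.result
    (f : ℕ → ℂ) (h1 : ∀ n, ‖f n‖ ≤ 1)
    (h2 : ∀ m n : ℕ, 0 < m → 0 < n → Nat.Coprime m n → f (m * n) = f m * f n)
    (h3 : ∀ a b : ℕ, 0 < a → 0 < b →
      Tendsto (fun N : ℕ => (1 / (N : ℂ)) * ∑ n ∈ Finset.Icc 1 N, f (a * n + b)) atTop (nhds 0))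
    (h4 : ∀ ε : ℝ, 0 < ε → ∀ U : ℝ, ∃ u : ℝ, U ≤ u ∧ ∃ q : ℕ, 0 < q ∧
      ∃ χ : DirichletCharacter ℂ q, ∀ M₀ : ℕ, ∃ M : ℕ, M₀ ≤ M ∧ ∃ t : ℝ, |t| ≤ (M : ℝ) ^ u ∧
        ∑ p ∈ (Finset.Icc 1 M).filter (fun p : ℕ => p.Prime ∧ (M : ℝ) ^ (1 / u) < p),
          (1 - (f p * conj (χ p) * (p : ℂ) ^ (-(t * Complex.I))).re) / p ≤ ε * Real.log u) :
    ∃ N : ℕ → ℕ, Tendsto N atTop atTop ∧
      ∀ w : ℕ → ℂ, (∀ n, ‖w n‖ ≤ 1) →
        (∀ φ : ℕ → ℕ, StrictMono φ →
          ∀ μ : Measure (ℤ → ℂ), IsProbabilityMeasure μ →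
          (∀ g : (ℤ → ℂ) →ᵇ ℝ,
            Tendsto (fun k : ℕ => (1 / (N (φ k) : ℝ)) * ∑ n ∈ Finset.Icc 1 (N (φ k)),
              g (fun j : ℤ => if 0 < j + (n : ℤ) then w (j + (n : ℤ)).toNat else 0))
              atTop (nhds (∫ x, g x ∂μ))) →
          ∀ m : ℕ, ∀ P : (ℤ → ℂ) → Fin m, Measurable P →
            Tendsto (fun r : ℕ => (1 / (r : ℝ)) * ∑ a : Fin r → Fin m, Real.negMulLog
              ((μ {x | ∀ i : Fin r, P (fun j : ℤ => x (j + (i.val : ℤ))) = a i}).toReal))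
              atTop (nhds 0)) →
        Tendsto (fun k : ℕ => (1 / (N k : ℂ)) * ∑ n ∈ Finset.Icc 1 (N k), f n * w n)
          atTop (nhds 0) := by
  obtain ⟨N, k1, k2⟩ := Pool.Agent.Lib.MP_232f4c_nt.Gap.chow' f h1 h2 h3 h4
  exact ⟨N, k1, fun w hw hd => Pool.Agent.Lib.MP_232f4c_nt.orth k1 k2 h1 hw hd⟩
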